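import Pool.Agent.Lib.HS.NC.Idu

/-!
# LEMMA U (PROJECT H*, part (F); helper83, helper30), part 2: the count
-/

set_option autoImplicit false

namespace Pool.Agent.A54.HS

open MeasureTheory Filter Topology Set
open scoped ComplexConjugate UpperHalfPlane MatrixGroups ENNReal
open Pool.Agent.A54.Dyn (G fl base ze io mk4 dom)
open Pool.Agent.A54.Av (Mat NonSc)
open Pool.Agent.A54.Hp

noncomputable section

/-- the condition of LEMMA U: all integral `m` of determinant `(p p') ^ j` with a point `x ∈ V`, `m x ∈ V`, are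
in `ℤ + ℤ X₀`, `X₀ = (n₀, n₁; n₂, 0)` -/
def ColV (V : Set G) (P : Finset ℕ) (n : Fin 3 → ℤ) : Prop :=
  ∀ p ∈ P, ∀ p' ∈ P, ∀ j : ℕ, (j = 1 ∨ j = 2) → ∀ m : Mat, m.det = ((p : ℤ) * (p' : ℤ)) ^ j →
    (∃ x ∈ V, nm m * x ∈ V) → ∃ κ : ℤ, ∀ i, uu m i = κ * n i

namespace CntM

open IdnM UfdM

/-- the matrix of the index `(N, k, γ)` -/
def hm (N k : ℕ) (γ : SL(2, ℤ)) : Mat := dk N k * (γ : Mat)

lemma det_hm (N k : ℕ) (γ : SL(2, ℤ)) : (hm N k γ).det = (N : ℤ) := by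
  rw [hm, Matrix.det_mul, γ.det_coe, mul_one, det_dk]

lemma hm_0 (N k : ℕ) (γ : SL(2, ℤ)) (i : Fin 2) : hm N k γ 0 i = (γ : Mat) 0 i := by
  rw [hm, dk, Matrix.mul_apply, Fin.sum_univ_two]
  simp

lemma hm_1 (N k : ℕ) (γ : SL(2, ℤ)) (i : Fin 2) :
    hm N k γ 1 i = k * (γ : Mat) 0 i + N * (γ : Mat) 1 i := by
  rw [hm, dk, Matrix.mul_apply, Fin.sum_univ_two]
  simp

lemma det_g (γ : SL(2, ℤ)) : (γ : Mat) 0 0 * (γ : Mat) 1 1 - (γ : Mat) 0 1 * (γ : Mat) 1 0 = 1 := by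
  have h := γ.det_coe
  rwa [Matrix.det_fin_two] at h

/-- injectivity -/
lemma inj {N k k' : ℕ} {γ γ' : SL(2, ℤ)} (hk : k < N) (hk' : k' < N)
    (h : hm N k γ = hm N k' γ') : k = k' ∧ γ = γ' := by
  have a0 : (γ : Mat) 0 0 = (γ' : Mat) 0 0 := by rw [← hm_0 N k, ← hm_0 N k', h]
  have a1 : (γ : Mat) 0 1 = (γ' : Mat) 0 1 := by rw [← hm_0 N k, ← hm_0 N k', h]
  have b0 : (k : ℤ) * (γ : Mat) 0 0 + N * (γ : Mat) 1 0 =
      k' * (γ' : Mat) 0 0 + N * (γ' : Mat) 1 0 := by rw [← hm_1 N k, ← hm_1 N k', h]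
  have b1 : (k : ℤ) * (γ : Mat) 0 1 + N * (γ : Mat) 1 1 =
      k' * (γ' : Mat) 0 1 + N * (γ' : Mat) 1 1 := by rw [← hm_1 N k, ← hm_1 N k', h]
  have d := det_g γ
  have d' := det_g γ'
  have e : (k' : ℤ) - k = N * (((γ : Mat) 1 0 - (γ' : Mat) 1 0) * (γ : Mat) 1 1 -
      ((γ : Mat) 1 1 - (γ' : Mat) 1 1) * (γ : Mat) 1 0) := by
    rw [← a0] at b0
    rw [← a1] at b1
    linear_combination (-(γ : Mat) 1 1) * b0 + (γ : Mat) 1 0 * b1 - ((k' : ℤ) - k) * d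
  have hkk : k = k' := by
    have h1 : (N : ℤ) ∣ (k' : ℤ) - k := ⟨_, e⟩
    have h2 : |(k' : ℤ) - k| < N := by
      rw [abs_lt]; constructor <;> omega
    have h3 := Int.eq_zero_of_abs_lt_dvd h1 h2
    omega
  refine ⟨hkk, ?_⟩
  subst hkk
  have hN : (N : ℤ) ≠ 0 := by omega
  rw [← a0] at b0
  rw [← a1] at b1
  have c0 : (γ : Mat) 1 0 = (γ' : Mat) 1 0 := mul_left_cancel₀ hN (by linarith)
  have c1 : (γ : Mat) 1 1 = (γ' : Mat) 1 1 := mul_left_cancel₀ hN (by linarith)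
  apply Subtype.ext
  ext i j
  fin_cases i <;> fin_cases j
  · exact a0
  · exact a1
  · exact c0
  · exact c1

/-- the divisibility -/
lemma dvd_all {N k : ℕ} {γ : SL(2, ℤ)} {p : ℕ} (hp : p.Prime) {j : ℕ} (hN : N = p ^ j)
    {n : Fin 3 → ℤ} (hF : ¬ (p : ℤ) ∣ Fq n k) {m h' : Mat} (hm' : m * hm N k γ = (N : ℤ) • h')
    {κ : ℤ} (hκ : ∀ i, uu m i = κ * n i) : ∀ i j, (N : ℤ) ∣ m i j := by
  -- multiply by γ⁻¹
  have e1 : m * dk N k = (N : ℤ) • (h' * (γ : Mat).adjugate) := by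
    have h1 : m * hm N k γ * (γ : Mat).adjugate = (N : ℤ) • (h' * (γ : Mat).adjugate) := by
      rw [hm', Matrix.smul_mul]
    rw [← h1, hm, Matrix.mul_assoc, Matrix.mul_assoc, Matrix.mul_adjugate, γ.det_coe, one_smul,
      Matrix.mul_one]
  have f0 : (N : ℤ) ∣ m 0 0 + m 0 1 * k := by
    refine ⟨(h' * (γ : Mat).adjugate) 0 0, ?_⟩
    have := congrFun (congrFun e1 0) 0
    rw [Matrix.mul_apply, Fin.sum_univ_two, Matrix.smul_apply, smul_eq_mul] at this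
    rw [← this, dk]
    simp
  have f1 : (N : ℤ) ∣ m 1 0 + m 1 1 * k := by
    refine ⟨(h' * (γ : Mat).adjugate) 1 0, ?_⟩
    have := congrFun (congrFun e1 1) 0
    rw [Matrix.mul_apply, Fin.sum_univ_two, Matrix.smul_apply, smul_eq_mul] at this
    rw [← this, dk]
    simp
  have u0 : m 0 0 - m 1 1 = κ * n 0 := hκ 0
  have u1 : m 0 1 = κ * n 1 := hκ 1
  have u2 : m 1 0 = κ * n 2 := hκ 2
  have g : (N : ℤ) ∣ κ * Fq n k := by
    have e2 : κ * Fq n k = (m 0 0 + m 0 1 * k) * k - (m 1 0 + m 1 1 * k) := by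
      unfold Fq
      linear_combination (-(k : ℤ)) * u0 - (k : ℤ) ^ 2 * u1 + u2
    rw [e2]
    exact dvd_sub (dvd_mul_of_dvd_left f0 _) f1
  have hco : IsCoprime (N : ℤ) (Fq n k) := by
    rw [hN]
    push_cast
    apply IsCoprime.pow_left
    rw [Prime.coprime_iff_not_dvd (Nat.prime_iff_prime_int.1 hp)]
    exact hF
  have hκd : (N : ℤ) ∣ κ := hco.dvd_of_dvd_mul_right g
  have d01 : (N : ℤ) ∣ m 0 1 := by rw [u1]; exact dvd_mul_of_dvd_left hκd _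
  have d10 : (N : ℤ) ∣ m 1 0 := by rw [u2]; exact dvd_mul_of_dvd_left hκd _
  have d00 : (N : ℤ) ∣ m 0 0 := by
    have := dvd_sub f0 (dvd_mul_of_dvd_left d01 (k : ℤ))
    rwa [add_sub_cancel_right] at this
  have d11 : (N : ℤ) ∣ m 1 1 := by
    have h1 : m 1 1 = m 0 0 - κ * n 0 := by rw [← u0]; ring
    rw [h1]
    exact dvd_sub d00 (dvd_mul_of_dvd_left hκd _)
  intro i j
  fin_cases i <;> fin_cases j
  · exact d00
  · exact d01
  · exact d10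
  · exact d11

lemma adj_uu (m : Mat) (i : Fin 3) : uu m.adjugate i = - uu m i := by
  rw [Matrix.adjugate_fin_two]
  fin_cases i
  · show m 1 1 - m 0 0 = -(m 0 0 - m 1 1); ring
  · rfl
  · rfl

/-- two returns -/
lemma two {R : ℝ} {V : Set G} (hVR : V ⊆ Om R) {P : Finset ℕ} (hP : ∀ p ∈ P, p.Prime)
    {n : Fin 3 → ℤ} (hCol : ColV V P n) {j : ℕ} (hj : j = 1 ∨ j = 2) {z : G}
    {p p' : ℕ} (hp : p ∈ P) (hp' : p' ∈ P) {k k' : ℕ} {γ γ' : SL(2, ℤ)}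
    (hk : ¬ (p : ℤ) ∣ Fq n k) (hk' : ¬ (p' : ℤ) ∣ Fq n k')
    (hx : nm (hm (p ^ j) k γ) * z ∈ V) (hx' : nm (hm (p' ^ j) k' γ') * z ∈ V) :
    ∃ m : Mat, hm (p' ^ j) k' γ' = m * hm (p ^ j) k γ ∧
      ∀ a b, |((m a b : ℤ) : ℝ)| ≤ 2 * R * R := by
  have hpp := hP p hp
  have hpp' := hP p' hp'
  have hN : (0 : ℤ) < ((p ^ j : ℕ) : ℤ) := by exact_mod_cast pow_pos hpp.pos j
  have hN' : (0 : ℤ) < ((p' ^ j : ℕ) : ℤ) := by exact_mod_cast pow_pos hpp'.pos j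
  obtain ⟨h, hh⟩ : ∃ h, h = hm (p ^ j) k γ := ⟨_, rfl⟩
  obtain ⟨h', hh'⟩ : ∃ h', h' = hm (p' ^ j) k' γ' := ⟨_, rfl⟩
  have dh : h.det = ((p ^ j : ℕ) : ℤ) := by rw [hh, det_hm]
  have dh' : h'.det = ((p' ^ j : ℕ) : ℤ) := by rw [hh', det_hm]
  rw [← hh] at hx
  rw [← hh'] at hx'
  obtain ⟨m, hmm⟩ : ∃ m, m = h' * h.adjugate := ⟨_, rfl⟩
  have dadj : h.adjugate.det = ((p ^ j : ℕ) : ℤ) := by
    rw [Matrix.det_adjugate, Fintype.card_fin, pow_one, dh]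
  have dm : m.det = ((p : ℤ) * (p' : ℤ)) ^ j := by
    rw [hmm, Matrix.det_mul, dh', dadj]
    push_cast
    ring
  -- the return m
  have e1 : nm m * (nm h * z) = nm h' * z := by
    rw [hmm, NmM.p1 _ _ (by rw [dh']; exact hN') (by rw [dadj]; exact hN),
      NmM.p3 _ (by rw [dh]; exact hN), mul_assoc, inv_mul_cancel_left]
  obtain ⟨κ, hκ⟩ := hCol p hp p' hp' j hj m dm ⟨_, hx, by rw [e1]; exact hx'⟩
  -- m h = N h'
  have e2 : m * h = ((p ^ j : ℕ) : ℤ) • h' := by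
    rw [hmm, Matrix.mul_assoc, Matrix.adjugate_mul, dh, Matrix.mul_smul, Matrix.mul_one]
  have e3 : m.adjugate * h' = ((p' ^ j : ℕ) : ℤ) • h := by
    rw [hmm, Matrix.adjugate_mul_distrib, Matrix.adjugate_adjugate _ (by simp),
      Fintype.card_fin, Matrix.mul_assoc, Matrix.adjugate_mul, dh', Matrix.mul_smul, Matrix.mul_one]
    simp
  have D1 : ∀ a b, ((p ^ j : ℕ) : ℤ) ∣ m a b := by
    rw [hh] at e2
    exact dvd_all hpp rfl hk e2 hκ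
  have D2' : ∀ a b, ((p' ^ j : ℕ) : ℤ) ∣ m.adjugate a b := by
    rw [hh'] at e3
    exact dvd_all hpp' rfl hk' e3 (κ := -κ) fun i => by rw [adj_uu, hκ]; ring
  have D2 : ∀ a b, ((p' ^ j : ℕ) : ℤ) ∣ m a b := by
    rw [Matrix.adjugate_fin_two] at D2'
    intro a b
    fin_cases a <;> fin_cases b
    · exact D2' 1 1
    · exact (dvd_neg.1 (D2' 0 1))
    · exact (dvd_neg.1 (D2' 1 0))
    · exact D2' 0 0
  -- p = p'
  have hpe : p = p' := by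
    by_contra hne
    have hco : IsCoprime ((p ^ j : ℕ) : ℤ) ((p' ^ j : ℕ) : ℤ) := by
      rw [Nat.isCoprime_iff_coprime]
      exact Nat.Coprime.pow _ _ ((Nat.coprime_primes hpp hpp').2 hne)
    have D : ∀ a b, (((p ^ j : ℕ) : ℤ) * ((p' ^ j : ℕ) : ℤ)) ∣ m a b := fun a b =>
      hco.mul_dvd (D1 a b) (D2 a b)
    have Dd : (((p ^ j : ℕ) : ℤ) * ((p' ^ j : ℕ) : ℤ)) * (((p ^ j : ℕ) : ℤ) * ((p' ^ j : ℕ) : ℤ)) ∣
        m.det := by
      rw [Matrix.det_fin_two]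
      exact dvd_sub (mul_dvd_mul (D 0 0) (D 1 1)) (mul_dvd_mul (D 0 1) (D 1 0))
    have e4 : m.det = ((p ^ j : ℕ) : ℤ) * ((p' ^ j : ℕ) : ℤ) := by
      rw [dm]; push_cast; ring
    rw [e4] at Dd
    have h1 : (0 : ℤ) < ((p ^ j : ℕ) : ℤ) * ((p' ^ j : ℕ) : ℤ) := mul_pos hN hN'
    have h2 := Int.le_of_dvd h1 Dd
    have h3 : (2 : ℤ) ≤ ((p ^ j : ℕ) : ℤ) := by
      have : 2 ≤ p ^ j := by
        rcases hj with rfl | rfl
        · rw [pow_one]; exact hpp.two_le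
        · nlinarith [hpp.two_le]
      exact_mod_cast this
    have h4 : (1 : ℤ) ≤ ((p' ^ j : ℕ) : ℤ) := hN'
    nlinarith
  subst hpe
  -- m = N m2
  have ex : ∀ a b, ∃ c : ℤ, m a b = ((p ^ j : ℕ) : ℤ) * c := fun a b => D1 a b
  choose m2 hm2 using ex
  have em : m = ((p ^ j : ℕ) : ℤ) • (Matrix.of m2 : Mat) := by
    ext a b
    rw [Matrix.smul_apply, smul_eq_mul]
    exact hm2 a b
  have e5 : h' = (Matrix.of m2 : Mat) * h := by
    have h1 : ((p ^ j : ℕ) : ℤ) • h' = ((p ^ j : ℕ) : ℤ) • ((Matrix.of m2 : Mat) * h) := by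
      rw [← e2, ← Matrix.smul_mul, ← em]
    exact smul_right_injective _ hN.ne' h1
  have d2 : (Matrix.of m2 : Mat).det = 1 := by
    have h1 := congrArg Matrix.det e5
    rw [Matrix.det_mul, dh, dh'] at h1
    exact mul_right_cancel₀ hN.ne' (by rw [one_mul]; exact h1.symm)
  refine ⟨Matrix.of m2, by rw [← hh, ← hh']; exact e5, fun a b => ?_⟩
  have e6 : nm (Matrix.of m2 : Mat) * (nm h * z) ∈ Om R := by
    rw [← mul_assoc, ← NmM.p1 _ _ (by rw [d2]; norm_num) (by rw [dh]; exact hN), ← e5]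
    exact hVR hx'
  have h7 := NmM.p5 R R (nm h * z) (Matrix.of m2 : Mat) (by rw [d2]; norm_num) (hVR hx) e6 a b
  rw [d2] at h7
  simpa using h7

/-- the finite set of matrices -/
lemma card_mat (b : ℕ) : ∃ E : Finset Mat, (∀ m : Mat, (∀ i j, |m i j| ≤ (b : ℤ)) → m ∈ E) ∧
    E.card ≤ (2 * b + 1) ^ 4 := by
  refine ⟨((Finset.Icc (-(b : ℤ)) b ×ˢ Finset.Icc (-(b : ℤ)) b) ×ˢ
    (Finset.Icc (-(b : ℤ)) b ×ˢ Finset.Icc (-(b : ℤ)) b)).image
      (fun x => (!![x.1.1, x.1.2; x.2.1, x.2.2] : Mat)), fun m hm => ?_, ?_⟩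
  · rw [Finset.mem_image]
    refine ⟨((m 0 0, m 0 1), (m 1 0, m 1 1)), ?_, ?_⟩
    · simp only [Finset.mem_product, Finset.mem_Icc]
      exact ⟨⟨abs_le.1 (hm 0 0), abs_le.1 (hm 0 1)⟩, abs_le.1 (hm 1 0), abs_le.1 (hm 1 1)⟩
    · exact (Matrix.eta_fin_two m).symm
  · refine Finset.card_image_le.trans (le_of_eq ?_)
    rw [Finset.card_product, Finset.card_product, Int.card_Icc]
    have : ((b : ℤ) + 1 - -(b : ℤ)).toNat = 2 * b + 1 := by omega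
    rw [this]
    ring

end CntM

open CntM UfdM in
/-- the count -/
theorem cnt_le {R : ℝ} {V : Set G} (hVR : V ⊆ Om R) {P : Finset ℕ} (hP : ∀ p ∈ P, p.Prime)
    {n : Fin 3 → ℤ} (hCol : ColV V P n) {j : ℕ} (hj : j = 1 ∨ j = 2) (z : G) :
    ∑ p ∈ P, cntA V (p ^ j) (Ak n p (p ^ j)) z ≤ ENNReal.ofReal ((4 * R ^ 2 + 1) ^ 4) := by
  obtain ⟨b, hb⟩ : ∃ b : ℕ, b = ⌊2 * R * R⌋₊ := ⟨_, rfl⟩
  obtain ⟨E, hE, hEc⟩ := card_mat b
  have hRR : 0 ≤ 2 * R * R := by nlinarith [sq_nonneg R]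
  -- the index set
  let I : Finset (Σ _ : ℕ, ℕ) := P.sigma fun p => Ak n p (p ^ j)
  let T : Set ({i // i ∈ I} × SL(2, ℤ)) := {x | nm (hm (x.1.1.1 ^ j) x.1.1.2 x.2) * z ∈ V}
  have e1 : ∑ p ∈ P, cntA V (p ^ j) (Ak n p (p ^ j)) z = (T.encard : ℝ≥0∞) := by
    have s1 : ∑ p ∈ P, cntA V (p ^ j) (Ak n p (p ^ j)) z = ∑ i ∈ I, ∑' γ : SL(2, ℤ),
        V.indicator (fun _ => (1 : ℝ≥0∞)) (nm (hm (i.1 ^ j) i.2 γ) * z) := by
      simp only [cntA, I, Finset.sum_sigma]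
      rfl
    rw [s1, ← Finset.tsum_subtype I (fun i => ∑' γ : SL(2, ℤ),
        V.indicator (fun _ => (1 : ℝ≥0∞)) (nm (hm (i.1 ^ j) i.2 γ) * z)),
      ← ENNReal.tsum_prod, ← ENNReal.tsum_set_one, tsum_subtype T (fun _ => (1 : ℝ≥0∞))]
    refine tsum_congr fun x => ?_
    by_cases hx : nm (hm (x.1.1.1 ^ j) x.1.1.2 x.2) * z ∈ V
    · rw [indicator_of_mem hx, indicator_of_mem (show x ∈ T from hx)]
    · rw [indicator_of_notMem hx, indicator_of_notMem (show x ∉ T from hx)]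
  rw [e1]
  have hI : ∀ i : {i // i ∈ I}, i.1.1 ∈ P ∧ i.1.2 < i.1.1 ^ j ∧ ¬ (i.1.1 : ℤ) ∣ Fq n i.1.2 := by
    intro i
    have h1 := i.2
    simp only [I, Finset.mem_sigma, Ak, Finset.mem_filter, Finset.mem_range] at h1
    exact ⟨h1.1, h1.2.1, h1.2.2⟩
  have hTc : T.encard ≤ ((2 * b + 1) ^ 4 : ℕ) := by
    rcases T.eq_empty_or_nonempty with h0 | ⟨x0, hx0⟩
    · rw [h0, encard_empty]
      exact zero_le
    · have key : ∀ x ∈ T, ∃ m ∈ (E : Set Mat), hm (x.1.1.1 ^ j) x.1.1.2 x.2 =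
          m * hm (x0.1.1.1 ^ j) x0.1.1.2 x0.2 := by
        intro x hx
        obtain ⟨m, hm1, hm2⟩ := two hVR hP hCol hj (hI x0.1).1 (hI x.1).1 (hI x0.1).2.2
          (hI x.1).2.2 hx0 hx
        refine ⟨m, ?_, hm1⟩
        rw [Finset.mem_coe]
        apply hE
        intro a c
        have h1 := hm2 a c
        have h2 : ((|m a c| : ℤ) : ℝ) ≤ 2 * R * R := by push_cast; exact h1
        have h3 : ((m a c).natAbs : ℝ) ≤ 2 * R * R := by
          rw [Nat.cast_natAbs]; exact h2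
        have h4 : (m a c).natAbs ≤ b := by
          rw [hb]; exact Nat.le_floor h3
        rw [Int.abs_eq_natAbs]
        exact_mod_cast h4
      choose! f hf hf' using key
      have hinj : InjOn f T := by
        intro x hx y hy hxy
        have h1 : hm (x.1.1.1 ^ j) x.1.1.2 x.2 = hm (y.1.1.1 ^ j) y.1.1.2 y.2 := by
          rw [hf' x hx, hf' y hy, hxy]
        have h2 : x.1.1.1 = y.1.1.1 := by
          have h3 := congrArg Matrix.det h1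
          rw [det_hm, det_hm] at h3
          have h4 : x.1.1.1 ^ j = y.1.1.1 ^ j := by exact_mod_cast h3
          have hj0 : j ≠ 0 := by rcases hj with rfl | rfl <;> norm_num
          exact Nat.pow_left_injective hj0 h4
        rw [← h2] at h1
        obtain ⟨h5, h6⟩ := inj (hI x.1).2.1 (by rw [h2]; exact (hI y.1).2.1) h1
        refine Prod.ext (Subtype.ext ?_) h6
        exact Sigma.ext h2 (heq_of_eq h5)
      calc T.encard ≤ (E : Set Mat).encard := encard_le_encard_of_injOn hf hinj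
        _ = (E.card : ℕ∞) := by rw [encard_coe_eq_coe_finsetCard]
        _ ≤ ((2 * b + 1) ^ 4 : ℕ) := by exact_mod_cast hEc
  calc (T.encard : ℝ≥0∞) ≤ ((((2 * b + 1) ^ 4 : ℕ) : ℕ∞) : ℝ≥0∞) := by
        exact_mod_cast hTc
    _ = ENNReal.ofReal ((((2 * b + 1) ^ 4 : ℕ) : ℝ)) := by
        rw [ENNReal.ofReal_natCast]; rfl
    _ ≤ ENNReal.ofReal ((4 * R ^ 2 + 1) ^ 4) := by
        apply ENNReal.ofReal_le_ofReal
        push_cast
        have h1 : (b : ℝ) ≤ 2 * R * R := by rw [hb]; exact Nat.floor_le hRR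
        refine pow_le_pow_left₀ (by positivity) ?_ 4
        nlinarith

end

end Pool.Agent.A54.HS
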