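import Pool.Agent.Lib.MP_a54f13_nt.Hp.Nm

/-!
# N-type conics (theorem NC, note 4657 of MP_a54f13_nt), part 1: the exact Hecke identity

`Φ(x) = √p l(p) Φ(nm (p, 0; -a, 1) x) - ∑_b Φ(nm (p², 0; -(a + b p), 1) x)` for every `a`: the `p` odd
neighbours of `x` which do not contain the first row of `x`.
-/

set_option autoImplicit false

namespace Pool.Agent.A54.HS

open MeasureTheory Filter Topology Set
open scoped ComplexConjugate UpperHalfPlane MatrixGroups ENNReal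
open Pool.Agent.A54.Dyn (G fl base ze io mk4 dom)
open Pool.Agent.A54.Av (Mat NonSc)
open Pool.Agent.A54.Hp

noncomputable section

/-- the matrix `(N, 0; -k, 1)` -/
def sk (N : ℕ) (k : ℤ) : Mat := !![(N : ℤ), 0; -k, 1]

namespace IdnM

lemma det_sk (N : ℕ) (k : ℤ) : (sk N k).det = (N : ℤ) := by
  rw [sk, Matrix.det_fin_two_of]; ring

lemma sk_mul (p q : ℕ) (a b : ℤ) : sk p b * sk q a = sk (p * q) (a + b * q) := by
  rw [sk, sk, sk]
  ext i j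
  fin_cases i <;> fin_cases j <;> simp [Matrix.mul_apply, Fin.sum_univ_two]

lemma det_d {p : ℕ} : (!![1, 0; 0, (p : ℤ)] : Mat).det = (p : ℤ) := by
  rw [Matrix.det_fin_two_of]; ring

lemma det_u {p : ℕ} : (!![(p : ℤ), 0; 0, 1] : Mat).det = (p : ℤ) := by
  rw [Matrix.det_fin_two_of]; ring

lemma det_b {p : ℕ} {b : ℤ} : (!![1, b; 0, (p : ℤ)] : Mat).det = (p : ℤ) := by
  rw [Matrix.det_fin_two_of]; ring

lemma SL_coe : ((ModularGroup.S : SL(2, ℤ)) : Mat) = !![0, -1; 1, 0] := rfl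

lemma S_d (p : ℕ) : (!![(p : ℤ), 0; 0, 1] : Mat) * ((ModularGroup.S : SL(2, ℤ)) : Mat) =
    ((ModularGroup.S : SL(2, ℤ)) : Mat) * !![1, 0; 0, (p : ℤ)] := by
  rw [SL_coe]
  ext i j
  fin_cases i <;> fin_cases j <;> simp [Matrix.mul_apply, Fin.sum_univ_two]

lemma S_b (p : ℕ) (b : ℤ) : (!![1, b; 0, (p : ℤ)] : Mat) * ((ModularGroup.S : SL(2, ℤ)) : Mat) =
    ((ModularGroup.S : SL(2, ℤ)) : Mat) * sk p b := by
  rw [SL_coe, sk]
  ext i j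
  fin_cases i <;> fin_cases j <;> simp [Matrix.mul_apply, Fin.sum_univ_two]

lemma io_nm (γ : SL(2, ℤ)) : nm (γ : Mat) = io γ := NmM.p2 γ

lemma nm_io {s : Mat} (hs : 0 < s.det) (γ : SL(2, ℤ)) : nm (s * (γ : Mat)) = nm s * io γ := by
  rw [NmM.p1 s _ hs (by rw [γ.det_coe]; norm_num), io_nm]

lemma io_mul {s : Mat} (hs : 0 < s.det) (γ : SL(2, ℤ)) : nm ((γ : Mat) * s) = io γ * nm s := by
  rw [NmM.p1 _ s (by rw [γ.det_coe]; norm_num) hs, io_nm]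

end IdnM

open IdnM

/-- the Hecke relation with the cosets `(1, 0; 0, p)`, `(p, 0; -b, 1)` -/
theorem hk1 {l : ℕ → ℝ} {Φ : G → ℂ} (h : HE l Φ) {p : ℕ} (hp : p.Prime) (g : G) :
    Φ (nm !![1, 0; 0, (p : ℤ)] * g) + ∑ b ∈ Finset.range p, Φ (nm (sk p b) * g) =
      ((√p * l p : ℝ) : ℂ) * Φ g := by
  have hp0 : (0 : ℤ) < (p : ℤ) := by exact_mod_cast hp.pos
  have h1 := h.hecke p hp (io ModularGroup.S * g)
  rw [h.inv ModularGroup.S g] at h1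
  rw [← h1]
  congr 1
  · rw [← mul_assoc, ← nm_io (by rw [det_u]; exact hp0), S_d,
      io_mul (by rw [det_d]; exact hp0), mul_assoc, h.inv]
  · refine Finset.sum_congr rfl fun b _ => ?_
    rw [← mul_assoc, ← nm_io (by rw [det_b]; exact hp0), S_b,
      io_mul (by rw [det_sk]; exact hp0), mul_assoc, h.inv]

/-- the lower unipotent matrix -/
def lu (a : ℤ) : SL(2, ℤ) := ⟨!![1, 0; a, 1], by rw [Matrix.det_fin_two_of]; ring⟩

/-- the exact identity -/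
theorem hk2 {l : ℕ → ℝ} {Φ : G → ℂ} (h : HE l Φ) {p : ℕ} (hp : p.Prime) (a : ℤ) (x : G) :
    Φ x + ∑ b ∈ Finset.range p, Φ (nm (sk (p * p) (a + b * p)) * x) =
      ((√p * l p : ℝ) : ℂ) * Φ (nm (sk p a) * x) := by
  have hp0 : (0 : ℤ) < (p : ℤ) := by exact_mod_cast hp.pos
  have h1 := hk1 h hp (nm (sk p a) * x)
  rw [← h1]
  congr 1
  · have e : (!![1, 0; 0, (p : ℤ)] : Mat) * sk p a = (p : ℤ) • ((lu (-a) : SL(2, ℤ)) : Mat) := by
      rw [sk, show ((lu (-a) : SL(2, ℤ)) : Mat) = !![1, 0; -a, 1] from rfl]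
      ext i j
      fin_cases i <;> fin_cases j <;> simp [Matrix.mul_apply, Fin.sum_univ_two]
    rw [← mul_assoc, ← NmM.p1 _ _ (by rw [det_d]; exact hp0) (by rw [det_sk]; exact hp0), e,
      NmM.p4 _ _ hp0, io_nm, h.inv]
  · refine Finset.sum_congr rfl fun b _ => ?_
    rw [← mul_assoc, ← NmM.p1 _ _ (by rw [det_sk]; exact hp0) (by rw [det_sk]; exact hp0),
      sk_mul]

lemma IdnM.blk {M : Type} [AddCommMonoid M] (f : ℕ → M) (p n : ℕ) :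
    ∑ k ∈ Finset.range (n * p), f k =
      ∑ b ∈ Finset.range n, ∑ a ∈ Finset.range p, f (a + b * p) := by
  induction n with
  | zero => simp
  | succ n ih =>
    rw [Nat.succ_mul, Finset.sum_range_add, ih, Finset.sum_range_succ]
    congr 1
    refine Finset.sum_congr rfl fun a _ => ?_
    rw [add_comm]

/-- the inequality for squares -/
theorem hk3 {l : ℕ → ℝ} {Φ : G → ℂ} (h : HE l Φ) {p : ℕ} (hp : p.Prime) (hl : |l p| ≤ 1) (x : G) :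
    ‖Φ x‖ ^ 2 ≤ 2 * ∑ a ∈ Finset.range p, ‖Φ (nm (sk p a) * x)‖ ^ 2 +
      2 * ∑ k ∈ Finset.range (p * p), ‖Φ (nm (sk (p * p) k) * x)‖ ^ 2 := by
  have hp0 : (0 : ℝ) < (p : ℝ) := by exact_mod_cast hp.pos
  have key : ∀ a ∈ Finset.range p, ‖Φ x‖ ^ 2 ≤ 2 * (p * ‖Φ (nm (sk p a) * x)‖ ^ 2) +
      2 * (p * ∑ b ∈ Finset.range p, ‖Φ (nm (sk (p * p) ((a + b * p : ℕ) : ℤ)) * x)‖ ^ 2) := by
    intro a _
    have h1 := hk2 h hp (a : ℤ) x
    have h2 : Φ x = ((√p * l p : ℝ) : ℂ) * Φ (nm (sk p a) * x) -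
        ∑ b ∈ Finset.range p, Φ (nm (sk (p * p) (a + b * p)) * x) := by
      rw [← h1]; ring
    have h3 : ‖Φ x‖ ≤ √p * ‖Φ (nm (sk p a) * x)‖ +
        ∑ b ∈ Finset.range p, ‖Φ (nm (sk (p * p) ((a + b * p : ℕ) : ℤ)) * x)‖ := by
      rw [h2]
      refine (norm_sub_le _ _).trans (add_le_add ?_ ((norm_sum_le _ _).trans (le_of_eq ?_)))
      · rw [norm_mul, Complex.norm_real, Real.norm_eq_abs, abs_mul, abs_of_nonneg (Real.sqrt_nonneg _)]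
        refine mul_le_mul_of_nonneg_right ?_ (norm_nonneg _)
        nlinarith [Real.sqrt_nonneg (p : ℝ)]
      · refine Finset.sum_congr rfl fun b _ => ?_
        push_cast
        rfl
    have h4 : (∑ b ∈ Finset.range p, ‖Φ (nm (sk (p * p) ((a + b * p : ℕ) : ℤ)) * x)‖) ^ 2 ≤
        p * ∑ b ∈ Finset.range p, ‖Φ (nm (sk (p * p) ((a + b * p : ℕ) : ℤ)) * x)‖ ^ 2 := by
      have := sq_sum_le_card_mul_sum_sq (s := Finset.range p)
        (f := fun b => ‖Φ (nm (sk (p * p) ((a + b * p : ℕ) : ℤ)) * x)‖)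
      rwa [Finset.card_range] at this
    have h5 : (√p * ‖Φ (nm (sk p a) * x)‖) ^ 2 = p * ‖Φ (nm (sk p a) * x)‖ ^ 2 := by
      rw [mul_pow, Real.sq_sqrt hp0.le]
    have h6 : ‖Φ x‖ ^ 2 ≤ (√p * ‖Φ (nm (sk p a) * x)‖ +
        ∑ b ∈ Finset.range p, ‖Φ (nm (sk (p * p) ((a + b * p : ℕ) : ℤ)) * x)‖) ^ 2 :=
      pow_le_pow_left₀ (norm_nonneg _) h3 2
    have h7 : ∀ s t : ℝ, (s + t) ^ 2 ≤ 2 * s ^ 2 + 2 * t ^ 2 := fun s t => by
      nlinarith [sq_nonneg (s - t)]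
    have h8 := h7 (√p * ‖Φ (nm (sk p a) * x)‖)
      (∑ b ∈ Finset.range p, ‖Φ (nm (sk (p * p) ((a + b * p : ℕ) : ℤ)) * x)‖)
    linarith
  have h9 := Finset.sum_le_sum key
  rw [Finset.sum_const, Finset.card_range, nsmul_eq_mul, Finset.sum_add_distrib, ← Finset.mul_sum,
    ← Finset.mul_sum, ← Finset.mul_sum, ← Finset.mul_sum] at h9
  have h10 : ∑ a ∈ Finset.range p, ∑ b ∈ Finset.range p,
      ‖Φ (nm (sk (p * p) ((a + b * p : ℕ) : ℤ)) * x)‖ ^ 2 =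
      ∑ k ∈ Finset.range (p * p), ‖Φ (nm (sk (p * p) k) * x)‖ ^ 2 := by
    rw [blk (fun k : ℕ => ‖Φ (nm (sk (p * p) k) * x)‖ ^ 2) p p, Finset.sum_comm]
  rw [h10] at h9
  have h11 : (p : ℝ) * ‖Φ x‖ ^ 2 ≤ p * (2 * ∑ a ∈ Finset.range p, ‖Φ (nm (sk p a) * x)‖ ^ 2 +
      2 * ∑ k ∈ Finset.range (p * p), ‖Φ (nm (sk (p * p) k) * x)‖ ^ 2) := by
    refine h9.trans (le_of_eq ?_)
    ring
  exact le_of_mul_le_mul_left h11 hp0

/-- the same in `ℝ≥0∞` -/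
theorem hk4 {l : ℕ → ℝ} {Φ : G → ℂ} (h : HE l Φ) {p : ℕ} (hp : p.Prime) (hl : |l p| ≤ 1) (x : G) :
    ‖Φ x‖ₑ ^ 2 ≤ 2 * ∑ a ∈ Finset.range p, ‖Φ (nm (sk p a) * x)‖ₑ ^ 2 +
      2 * ∑ k ∈ Finset.range (p * p), ‖Φ (nm (sk (p * p) k) * x)‖ₑ ^ 2 := by
  have e : ∀ z : ℂ, ‖z‖ₑ ^ 2 = ENNReal.ofReal (‖z‖ ^ 2) := fun z => by
    rw [← ofReal_norm, ENNReal.ofReal_pow (norm_nonneg _)]
  have e2 : (2 : ℝ≥0∞) = ENNReal.ofReal 2 := by norm_num
  simp only [e]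
  rw [← ENNReal.ofReal_sum_of_nonneg (fun _ _ => by positivity),
    ← ENNReal.ofReal_sum_of_nonneg (fun _ _ => by positivity), e2,
    ← ENNReal.ofReal_mul (by norm_num), ← ENNReal.ofReal_mul (by norm_num),
    ← ENNReal.ofReal_add (by positivity) (by positivity)]
  exact ENNReal.ofReal_le_ofReal (hk3 h hp hl x)

end

end Pool.Agent.A54.HS
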