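import Pool.Agent.Lib.HS.NC.Ufd

/-!
# LEMMA U (PROJECT H*, part (F); helper83, helper30), part 1: the identity on a large set of neighbours

`Fq n k = n₁ k² + n₀ k - n₂`; `Ak n p N` = the `k < N` with `p ∤ Fq n k`.
-/

set_option autoImplicit false

namespace Pool.Agent.A54.HS

open MeasureTheory Filter Topology Set
open scoped ComplexConjugate UpperHalfPlane MatrixGroups ENNReal
open Pool.Agent.A54.Dyn (G fl base ze io mk4 dom)
open Pool.Agent.A54.Av (Mat NonSc)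
open Pool.Agent.A54.Hp

noncomputable section

/-- the quadratic polynomial of `n` -/
def Fq (n : Fin 3 → ℤ) (k : ℤ) : ℤ := n 1 * k ^ 2 + n 0 * k - n 2

/-- the good neighbours -/
def Ak (n : Fin 3 → ℤ) (p N : ℕ) : Finset ℕ := (Finset.range N).filter fun k => ¬ (p : ℤ) ∣ Fq n k

/-- the number of `(k, γ)`, `k ∈ A`, with `nm ((1, 0; k, N) γ) z ∈ V` -/
def cntA (V : Set G) (N : ℕ) (A : Finset ℕ) (z : G) : ℝ≥0∞ :=
  ∑ k ∈ A, ∑' γ : SL(2, ℤ), V.indicator (fun _ => (1 : ℝ≥0∞)) (nm (dk N k * (γ : Mat)) * z)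

namespace IduM

open IdnM UfdM Polynomial

lemma cf {K : Type} [Field K] (u v w : K) : (C u * X ^ 2 + C v * X + C w).coeff 0 = w ∧
    (C u * X ^ 2 + C v * X + C w).coeff 1 = v ∧ (C u * X ^ 2 + C v * X + C w).coeff 2 = u := by
  refine ⟨?_, ?_, ?_⟩ <;> simp [coeff_X, coeff_C]

/-- a nonzero quadratic polynomial has at most two roots modulo `p` -/
lemma roots_le {p : ℕ} (hp : p.Prime) {n : Fin 3 → ℤ} (hn : ∃ i, ¬ (p : ℤ) ∣ n i) :
    ((Finset.range p).filter fun k : ℕ => (p : ℤ) ∣ Fq n k).card ≤ 2 := by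
  have : Fact p.Prime := ⟨hp⟩
  let q : Polynomial (ZMod p) := C (n 1 : ZMod p) * X ^ 2 + C (n 0 : ZMod p) * X - C (n 2 : ZMod p)
  have hq : q = C (n 1 : ZMod p) * X ^ 2 + C (n 0 : ZMod p) * X + C (-(n 2 : ZMod p)) := by
    simp only [q, map_neg, sub_eq_add_neg]
  have hq0 : q ≠ 0 := by
    intro h0
    obtain ⟨i, hi⟩ := hn
    obtain ⟨e0, e1, e2⟩ := cf (n 1 : ZMod p) (n 0 : ZMod p) (-(n 2 : ZMod p))
    rw [← hq, h0, coeff_zero] at e0 e1 e2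
    apply hi
    rw [← ZMod.intCast_zmod_eq_zero_iff_dvd]
    fin_cases i
    · exact e1.symm
    · exact e2.symm
    · exact neg_eq_zero.1 e0.symm
  have hdeg : q.natDegree ≤ 2 := by
    rw [hq]
    exact natDegree_quadratic_le
  have hsub : ((Finset.range p).filter fun k : ℕ => (p : ℤ) ∣ Fq n k).card ≤
      q.roots.toFinset.card := by
    refine Finset.card_le_card_of_injOn (fun k : ℕ => (k : ZMod p)) ?_ ?_
    · intro k hk
      rw [Finset.mem_coe, Finset.mem_filter] at hk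
      rw [Finset.mem_coe, Multiset.mem_toFinset, mem_roots hq0, IsRoot.def]
      have h1 := hk.2
      rw [← ZMod.intCast_zmod_eq_zero_iff_dvd] at h1
      simp only [Fq] at h1
      push_cast at h1
      simp only [q, eval_sub, eval_add, eval_mul, eval_C, eval_pow, eval_X]
      exact h1
    · intro a ha b hb hab
      rw [Finset.mem_coe, Finset.mem_filter, Finset.mem_range] at ha hb
      have h1 : (a : ZMod p) = (b : ZMod p) := hab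
      rw [ZMod.natCast_eq_natCast_iff'] at h1
      rwa [Nat.mod_eq_of_lt ha.1, Nat.mod_eq_of_lt hb.1] at h1
  exact hsub.trans ((Multiset.toFinset_card_le _).trans ((card_roots' q).trans hdeg))

lemma card_Ak {p : ℕ} (hp : p.Prime) (h4 : 4 ≤ p) {n : Fin 3 → ℤ} (hn : ∃ i, ¬ (p : ℤ) ∣ n i) :
    p ≤ 2 * (Ak n p p).card := by
  have h1 := roots_le hp hn
  have h2 := Finset.card_filter_add_card_filter_not (s := Finset.range p)
    (fun k : ℕ => (p : ℤ) ∣ Fq n k)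
  rw [Finset.card_range] at h2
  have h3 : (Ak n p p).card = ((Finset.range p).filter fun k : ℕ => ¬ (p : ℤ) ∣ Fq n k).card := rfl
  omega

lemma Fq_mod (n : Fin 3 → ℤ) (p : ℤ) (a b : ℤ) : p ∣ Fq n (a + b * p) ↔ p ∣ Fq n a := by
  have h : Fq n (a + b * p) = Fq n a + p * (n 1 * (2 * a * b + b ^ 2 * p) + n 0 * b) := by
    unfold Fq; ring
  rw [h]
  exact (Int.dvd_add_left (dvd_mul_right _ _))

lemma sum_Ak {M : Type} [AddCommMonoid M] (n : Fin 3 → ℤ) (p : ℕ) (f : ℕ → M) :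
    ∑ k ∈ Ak n p (p * p), f k = ∑ a ∈ Ak n p p, ∑ b ∈ Finset.range p, f (a + b * p) := by
  rw [Ak, Finset.sum_filter, blk, Finset.sum_comm, Ak, Finset.sum_filter]
  refine Finset.sum_congr rfl fun a _ => ?_
  have h : ∀ b : ℕ, ((p : ℤ) ∣ Fq n ((a + b * p : ℕ) : ℤ)) ↔ (p : ℤ) ∣ Fq n a := fun b => by
    push_cast
    exact Fq_mod n p a b
  by_cases hc : (p : ℤ) ∣ Fq n a
  · rw [if_neg (not_not.2 hc)]
    exact Finset.sum_eq_zero fun b _ => if_neg (not_not.2 ((h b).2 hc))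
  · rw [if_pos hc]
    exact Finset.sum_congr rfl fun b _ => if_pos fun h' => hc ((h b).1 h')

end IduM

open IduM

/-- the inequality for squares on the good neighbours -/
theorem hu3 {l : ℕ → ℝ} {Φ : G → ℂ} (h : HE l Φ) {p : ℕ} (hp : p.Prime) (h4 : 4 ≤ p)
    (hl : |l p| ≤ 1) {n : Fin 3 → ℤ} (hn : ∃ i, ¬ (p : ℤ) ∣ n i) (x : G) :
    ‖Φ x‖ ^ 2 ≤ 4 * ∑ a ∈ Ak n p p, ‖Φ (nm (sk p a) * x)‖ ^ 2 +
      4 * ∑ k ∈ Ak n p (p * p), ‖Φ (nm (sk (p * p) k) * x)‖ ^ 2 := by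
  have hp0 : (0 : ℝ) < (p : ℝ) := by exact_mod_cast hp.pos
  have key : ∀ a ∈ Ak n p p, ‖Φ x‖ ^ 2 ≤ 2 * (p * ‖Φ (nm (sk p a) * x)‖ ^ 2) +
      2 * (p * ∑ b ∈ Finset.range p, ‖Φ (nm (sk (p * p) ((a + b * p : ℕ) : ℤ)) * x)‖ ^ 2) := by
    intro a _
    have h1 := hk2 h hp (a : ℤ) x
    have h2 : Φ x = ((√p * l p : ℝ) : ℂ) * Φ (nm (sk p a) * x) -
        ∑ b ∈ Finset.range p, Φ (nm (sk (p * p) (a + b * p)) * x) := by
      rw [← h1]; ring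
    have h3 : ‖Φ x‖ ≤ √p * ‖Φ (nm (sk p a) * x)‖ +
        ∑ b ∈ Finset.range p, ‖Φ (nm (sk (p * p) ((a + b * p : ℕ) : ℤ)) * x)‖ := by
      rw [h2]
      refine (norm_sub_le _ _).trans (add_le_add ?_ ((norm_sum_le _ _).trans (le_of_eq ?_)))
      · rw [norm_mul, Complex.norm_real, Real.norm_eq_abs, abs_mul, abs_of_nonneg (Real.sqrt_nonneg _)]
        refine mul_le_mul_of_nonneg_right ?_ (norm_nonneg _)
        nlinarith [Real.sqrt_nonneg (p : ℝ)]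
      · refine Finset.sum_congr rfl fun b _ => ?_
        push_cast
        rfl
    have h4 : (∑ b ∈ Finset.range p, ‖Φ (nm (sk (p * p) ((a + b * p : ℕ) : ℤ)) * x)‖) ^ 2 ≤
        p * ∑ b ∈ Finset.range p, ‖Φ (nm (sk (p * p) ((a + b * p : ℕ) : ℤ)) * x)‖ ^ 2 := by
      have := sq_sum_le_card_mul_sum_sq (s := Finset.range p)
        (f := fun b => ‖Φ (nm (sk (p * p) ((a + b * p : ℕ) : ℤ)) * x)‖)
      rwa [Finset.card_range] at this
    have h5 : (√p * ‖Φ (nm (sk p a) * x)‖) ^ 2 = p * ‖Φ (nm (sk p a) * x)‖ ^ 2 := by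
      rw [mul_pow, Real.sq_sqrt hp0.le]
    have h6 : ‖Φ x‖ ^ 2 ≤ (√p * ‖Φ (nm (sk p a) * x)‖ +
        ∑ b ∈ Finset.range p, ‖Φ (nm (sk (p * p) ((a + b * p : ℕ) : ℤ)) * x)‖) ^ 2 :=
      pow_le_pow_left₀ (norm_nonneg _) h3 2
    have h7 : ∀ s t : ℝ, (s + t) ^ 2 ≤ 2 * s ^ 2 + 2 * t ^ 2 := fun s t => by
      nlinarith [sq_nonneg (s - t)]
    have h8 := h7 (√p * ‖Φ (nm (sk p a) * x)‖)
      (∑ b ∈ Finset.range p, ‖Φ (nm (sk (p * p) ((a + b * p : ℕ) : ℤ)) * x)‖)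
    linarith
  have h9 := Finset.sum_le_sum key
  rw [Finset.sum_const, nsmul_eq_mul, Finset.sum_add_distrib, ← Finset.mul_sum,
    ← Finset.mul_sum, ← Finset.mul_sum, ← Finset.mul_sum] at h9
  have h10 := sum_Ak n p fun k : ℕ => ‖Φ (nm (sk (p * p) k) * x)‖ ^ 2
  rw [← h10] at h9
  have h12 : (p : ℝ) / 2 ≤ ((Ak n p p).card : ℝ) := by
    have : (p : ℝ) ≤ ((2 * (Ak n p p).card : ℕ) : ℝ) := by exact_mod_cast card_Ak hp h4 hn
    push_cast at this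
    linarith
  have h13 : (p : ℝ) / 2 * ‖Φ x‖ ^ 2 ≤ ((Ak n p p).card : ℝ) * ‖Φ x‖ ^ 2 :=
    mul_le_mul_of_nonneg_right h12 (by positivity)
  have h11 : (p : ℝ) * ‖Φ x‖ ^ 2 ≤ p * (4 * ∑ a ∈ Ak n p p, ‖Φ (nm (sk p a) * x)‖ ^ 2 +
      4 * ∑ k ∈ Ak n p (p * p), ‖Φ (nm (sk (p * p) k) * x)‖ ^ 2) := by
    linarith
  exact le_of_mul_le_mul_left h11 hp0

/-- the same in `ℝ≥0∞` -/
theorem hu4 {l : ℕ → ℝ} {Φ : G → ℂ} (h : HE l Φ) {p : ℕ} (hp : p.Prime) (h4 : 4 ≤ p)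
    (hl : |l p| ≤ 1) {n : Fin 3 → ℤ} (hn : ∃ i, ¬ (p : ℤ) ∣ n i) (x : G) :
    ‖Φ x‖ₑ ^ 2 ≤ 4 * ∑ a ∈ Ak n p p, ‖Φ (nm (sk p a) * x)‖ₑ ^ 2 +
      4 * ∑ k ∈ Ak n p (p * p), ‖Φ (nm (sk (p * p) k) * x)‖ₑ ^ 2 := by
  have e : ∀ z : ℂ, ‖z‖ₑ ^ 2 = ENNReal.ofReal (‖z‖ ^ 2) := fun z => by
    rw [← ofReal_norm, ENNReal.ofReal_pow (norm_nonneg _)]
  have e2 : (4 : ℝ≥0∞) = ENNReal.ofReal 4 := by norm_num
  simp only [e]
  rw [← ENNReal.ofReal_sum_of_nonneg (fun _ _ => by positivity),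
    ← ENNReal.ofReal_sum_of_nonneg (fun _ _ => by positivity), e2,
    ← ENNReal.ofReal_mul (by norm_num), ← ENNReal.ofReal_mul (by norm_num),
    ← ENNReal.ofReal_add (by positivity) (by positivity)]
  exact ENNReal.ofReal_le_ofReal (hu3 h hp h4 hl hn x)

/-- unfolding -/
theorem cntA_int (h1 : StmtNuL) (h2 : StmtUnf) {l : ℕ → ℝ} {Φ : G → ℂ} (hE : HE l Φ) {V : Set G}
    (hV : MeasurableSet V) {N : ℕ} (hN : 0 < N) (A : Finset ℕ) :
    2 * ∫⁻ x in V, ∑ k ∈ A, ‖Φ (nm (sk N k) * x)‖ₑ ^ 2 ∂nu =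
      ∫⁻ z in FF, ‖Φ z‖ₑ ^ 2 * cntA V N A z ∂nu := by
  have := Pl.U1M.countable_sl
  rw [lintegral_finsetSum]
  · rw [Finset.mul_sum]
    simp only [UfdM.one h1 h2 hE hV hN]
    rw [← lintegral_finsetSum]
    · refine lintegral_congr fun z => ?_
      rw [cntA, Finset.mul_sum]
    · intro k _
      refine Measurable.mul (hE.cont.measurable.enorm.pow_const 2) ?_
      refine Measurable.tsum fun γ => ?_
      exact (measurable_const.indicator hV).comp (measurable_const_mul _)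
  · intro k _
    exact ((hE.cont.comp (continuous_const_mul _)).measurable.enorm.pow_const 2)

/-- the bound from the counts -/
theorem nu_gen (h1 : StmtNuL) (h2 : StmtUnf) {l : ℕ → ℝ} {Φ : G → ℂ} (hE : HE l Φ) {V : Set G}
    (hV : MeasurableSet V) {P : Finset ℕ} (hP : ∀ p ∈ P, p.Prime ∧ 4 ≤ p ∧ |l p| ≤ 1)
    {n : Fin 3 → ℤ} (hn : ∀ p ∈ P, ∃ i, ¬ (p : ℤ) ∣ n i) {B : ℝ≥0∞}
    (hB1 : ∀ z : G, ∑ p ∈ P, cntA V p (Ak n p p) z ≤ B)
    (hB2 : ∀ z : G, ∑ p ∈ P, cntA V (p * p) (Ak n p (p * p)) z ≤ B) :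
    (P.card : ℝ≥0∞) * ms Φ V ≤ 8 * B := by
  have := Pl.U1M.countable_sl
  have key : ∀ p ∈ P, ms Φ V ≤ 2 * (∫⁻ z in FF, ‖Φ z‖ₑ ^ 2 * cntA V p (Ak n p p) z ∂nu) +
      2 * ∫⁻ z in FF, ‖Φ z‖ₑ ^ 2 * cntA V (p * p) (Ak n p (p * p)) z ∂nu := by
    intro p hp
    obtain ⟨hpp, hp4, hl⟩ := hP p hp
    have m1 : ∀ (N : ℕ) (A : Finset ℕ), Measurable fun x : G =>
        ∑ k ∈ A, ‖Φ (nm (sk N k) * x)‖ₑ ^ 2 := fun N A =>
      Finset.measurable_sum _ fun k _ =>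
        ((hE.cont.comp (continuous_const_mul _)).measurable.enorm.pow_const 2)
    rw [← cntA_int h1 h2 hE hV hpp.pos, ← cntA_int h1 h2 hE hV (Nat.mul_pos hpp.pos hpp.pos),
      ← mul_assoc, ← mul_assoc, show (2 : ℝ≥0∞) * 2 = 4 by norm_num,
      ← lintegral_const_mul _ (m1 p _), ← lintegral_const_mul _ (m1 (p * p) _),
      ← lintegral_add_left ((m1 p _).const_mul 4)]
    exact lintegral_mono fun x => hu4 hE hpp hp4 hl (hn p hp) x
  have m2 : ∀ (N : ℕ) (A : Finset ℕ), Measurable fun z : G => ‖Φ z‖ₑ ^ 2 * cntA V N A z :=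
    fun N A => by
    refine Measurable.mul (hE.cont.measurable.enorm.pow_const 2) ?_
    refine Finset.measurable_sum _ fun k _ => Measurable.tsum fun γ => ?_
    exact (measurable_const.indicator hV).comp (measurable_const_mul _)
  have h3 := Finset.sum_le_sum key
  rw [Finset.sum_const, nsmul_eq_mul, Finset.sum_add_distrib, ← Finset.mul_sum,
    ← Finset.mul_sum] at h3
  refine h3.trans ?_
  rw [← lintegral_finsetSum _ fun p _ => m2 p _, ← lintegral_finsetSum _ fun p _ => m2 (p * p) _]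
  have h4 : ∀ f : G → ℝ≥0∞, (∀ z, f z ≤ B) → ∫⁻ z in FF, ‖Φ z‖ₑ ^ 2 * f z ∂nu ≤ B * 2 := by
    intro f hf
    calc ∫⁻ z in FF, ‖Φ z‖ₑ ^ 2 * f z ∂nu ≤ ∫⁻ z in FF, B * ‖Φ z‖ₑ ^ 2 ∂nu :=
          lintegral_mono fun z => by
            rw [mul_comm]
            exact mul_le_mul_left (hf z) _
      _ = B * ∫⁻ z in FF, ‖Φ z‖ₑ ^ 2 ∂nu := by
          rw [lintegral_const_mul _ (hE.cont.measurable.enorm.pow_const 2)]
      _ ≤ B * 2 := mul_le_mul_right hE.norm _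
  have e3 : ∀ z, ∑ p ∈ P, ‖Φ z‖ₑ ^ 2 * cntA V p (Ak n p p) z =
      ‖Φ z‖ₑ ^ 2 * ∑ p ∈ P, cntA V p (Ak n p p) z := fun z => by rw [Finset.mul_sum]
  have e4 : ∀ z, ∑ p ∈ P, ‖Φ z‖ₑ ^ 2 * cntA V (p * p) (Ak n p (p * p)) z =
      ‖Φ z‖ₑ ^ 2 * ∑ p ∈ P, cntA V (p * p) (Ak n p (p * p)) z := fun z => by rw [Finset.mul_sum]
  simp only [e3, e4]
  calc _ ≤ 2 * (B * 2) + 2 * (B * 2) := add_le_add (mul_le_mul_right (h4 _ hB1) _)
        (mul_le_mul_right (h4 _ hB2) _)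
    _ = 8 * B := by ring

end

end Pool.Agent.A54.HS
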