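import Pool.Agent.Lib.HS.NC.Cnt
import Pool.Agent.Lib.MP_a54f13_nt.Hp.NuLeft
import Pool.Agent.Lib.MP_a54f13_nt.Hp.Unf

/-!
# LEMMA U (PROJECT H*, part (F); helper83, helper30)
-/

set_option autoImplicit false

namespace Pool.Agent.A54.HS

open MeasureTheory Filter Topology Set
open scoped ComplexConjugate UpperHalfPlane MatrixGroups ENNReal
open Pool.Agent.A54.Dyn (G fl base ze io mk4 dom)
open Pool.Agent.A54.Av (Mat NonSc)
open Pool.Agent.A54.Hp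

/-- **LEMMA U.** If all returns of level `(p p') ^ j`, `j = 1, 2`, to `V ⊆ Om R` have traceless part in
`ℤ n`, then `|P| ms(V) ≤ 8 (4 R² + 1) ^ 4`. -/
theorem lemU {l : ℕ → ℝ} {Φ : G → ℂ} (hE : HE l Φ) {R : ℝ} {V : Set G} (hV : MeasurableSet V)
    (hVR : V ⊆ Om R) {P : Finset ℕ} (hP : ∀ p ∈ P, p.Prime ∧ 4 ≤ p ∧ |l p| ≤ 1)
    {n : Fin 3 → ℤ} (hn : ∀ p ∈ P, ∃ i, ¬ (p : ℤ) ∣ n i) (hCol : ColV V P n) :
    (P.card : ℝ≥0∞) * ms Φ V ≤ 8 * ENNReal.ofReal ((4 * R ^ 2 + 1) ^ 4) := by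
  refine nu_gen stmtNuL (stmtUnf stmtNuL) hE hV hP hn (fun z => ?_) fun z => ?_
  · have h := cnt_le hVR (fun p hp => (hP p hp).1) hCol (Or.inl rfl) z
    simpa only [pow_one] using h
  · have h := cnt_le hVR (fun p hp => (hP p hp).1) hCol (Or.inr rfl) z
    simpa only [pow_two] using h

end Pool.Agent.A54.HS
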