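import Pool.Agent.Lib.HS.NC.Idn
import Pool.Agent.Lib.MP_a54f13_nt.Pl.U1

/-!
# N-type conics, part 2: unfolding

For measurable `V ⊆ G` and primes `p ∈ P` with `|l(p)| ≤ 1`: if for every `z` the number of
`(p, k, γ)`, `0 ≤ k < p ^ j`, with `nm ((1, 0; k, p ^ j) γ) z ∈ V` is at most `B` (`j = 1, 2`) then
`|P| ms Φ V ≤ 4 B`.
-/

set_option autoImplicit false

namespace Pool.Agent.A54.HS

open MeasureTheory Filter Topology Set
open scoped ComplexConjugate UpperHalfPlane MatrixGroups ENNReal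
open Pool.Agent.A54.Dyn (G fl base ze io mk4 dom)
open Pool.Agent.A54.Av (Mat NonSc)
open Pool.Agent.A54.Hp

noncomputable section

/-- the matrix `(1, 0; k, N)`, adjugate of `sk N k` -/
def dk (N : ℕ) (k : ℤ) : Mat := !![1, 0; k, (N : ℤ)]

/-- the number of `(k, γ)`, `0 ≤ k < N`, with `nm ((1, 0; k, N) γ) z ∈ V` -/
def cnt (V : Set G) (N : ℕ) (z : G) : ℝ≥0∞ :=
  ∑ k ∈ Finset.range N, ∑' γ : SL(2, ℤ),
    V.indicator (fun _ => (1 : ℝ≥0∞)) (nm (dk N k * (γ : Mat)) * z)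

namespace UfdM

open IdnM

lemma det_dk (N : ℕ) (k : ℤ) : (dk N k).det = (N : ℤ) := by
  rw [dk, Matrix.det_fin_two_of]; ring

lemma adj_sk (N : ℕ) (k : ℤ) : (sk N k).adjugate = dk N k := by
  rw [sk, dk, Matrix.adjugate_fin_two_of]
  simp

lemma inv_nm {N : ℕ} (hN : 0 < N) (k : ℤ) : (nm (sk N k))⁻¹ = nm (dk N k) := by
  rw [← NmM.p3 _ (by rw [det_sk]; exact_mod_cast hN), adj_sk]

/-- unfolding one integral -/
lemma one (h1 : StmtNuL) (h2 : StmtUnf) {l : ℕ → ℝ} {Φ : G → ℂ} (hE : HE l Φ) {V : Set G}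
    (hV : MeasurableSet V) {N : ℕ} (hN : 0 < N) (k : ℤ) :
    2 * ∫⁻ x in V, ‖Φ (nm (sk N k) * x)‖ₑ ^ 2 ∂nu = ∫⁻ z in FF, ‖Φ z‖ₑ ^ 2 *
      ∑' γ : SL(2, ℤ), V.indicator (fun _ => (1 : ℝ≥0∞)) (nm (dk N k * (γ : Mat)) * z) ∂nu := by
  have : nu.IsMulLeftInvariant := h1.1
  have := Pl.U1M.countable_sl
  have hm : Measurable fun z : G => V.indicator (fun _ => (1 : ℝ≥0∞)) (nm (dk N k) * z) *
      ‖Φ z‖ₑ ^ 2 := by
    refine Measurable.mul ?_ (hE.cont.measurable.enorm.pow_const 2)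
    exact (measurable_const.indicator hV).comp (measurable_const_mul _)
  have e1 : ∫⁻ x in V, ‖Φ (nm (sk N k) * x)‖ₑ ^ 2 ∂nu =
      ∫⁻ z, V.indicator (fun _ => (1 : ℝ≥0∞)) (nm (dk N k) * z) * ‖Φ z‖ₑ ^ 2 ∂nu := by
    rw [← lintegral_mul_left_eq_self (fun z : G => V.indicator (fun _ => (1 : ℝ≥0∞))
      (nm (dk N k) * z) * ‖Φ z‖ₑ ^ 2) (nm (sk N k)), ← lintegral_indicator hV]
    refine lintegral_congr fun x => ?_
    have e2 : nm (dk N k) * (nm (sk N k) * x) = x := by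
      rw [← inv_nm hN, inv_mul_cancel_left]
    simp only [e2]
    by_cases hx : x ∈ V
    · rw [indicator_of_mem hx, indicator_of_mem hx, one_mul]
    · rw [indicator_of_notMem hx, indicator_of_notMem hx, zero_mul]
  rw [e1, ← h2.1 _ hm, ← lintegral_tsum]
  · refine setLIntegral_congr_fun (?_ : MeasurableSet FF) fun z _ => ?_
    · exact Dyn.measurable_base ModularGroup.isOpen_fdo.measurableSet
    · rw [← ENNReal.tsum_mul_left]
      refine tsum_congr fun γ => ?_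
      rw [hE.inv, mul_comm, nm_io (by rw [det_dk]; exact_mod_cast hN), mul_assoc]
  · intro γ
    exact (hm.comp (measurable_const_mul (io γ))).aemeasurable

lemma cnt_int (h1 : StmtNuL) (h2 : StmtUnf) {l : ℕ → ℝ} {Φ : G → ℂ} (hE : HE l Φ) {V : Set G}
    (hV : MeasurableSet V) {N : ℕ} (hN : 0 < N) :
    2 * ∫⁻ x in V, ∑ k ∈ Finset.range N, ‖Φ (nm (sk N k) * x)‖ₑ ^ 2 ∂nu =
      ∫⁻ z in FF, ‖Φ z‖ₑ ^ 2 * cnt V N z ∂nu := by
  have := Pl.U1M.countable_sl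
  rw [lintegral_finsetSum]
  · rw [Finset.mul_sum]
    simp only [one h1 h2 hE hV hN]
    rw [← lintegral_finsetSum]
    · refine lintegral_congr fun z => ?_
      rw [cnt, Finset.mul_sum]
    · intro k _
      refine Measurable.mul (hE.cont.measurable.enorm.pow_const 2) ?_
      refine Measurable.tsum fun γ => ?_
      exact (measurable_const.indicator hV).comp (measurable_const_mul _)
  · intro k _
    exact ((hE.cont.comp (continuous_const_mul _)).measurable.enorm.pow_const 2)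

end UfdM

open UfdM

/-- the bound -/
theorem nc_gen (h1 : StmtNuL) (h2 : StmtUnf) {l : ℕ → ℝ} {Φ : G → ℂ} (hE : HE l Φ) {V : Set G}
    (hV : MeasurableSet V) {P : Finset ℕ} (hP : ∀ p ∈ P, p.Prime ∧ |l p| ≤ 1) {B : ℝ≥0∞}
    (hB1 : ∀ z : G, ∑ p ∈ P, cnt V p z ≤ B) (hB2 : ∀ z : G, ∑ p ∈ P, cnt V (p * p) z ≤ B) :
    (P.card : ℝ≥0∞) * ms Φ V ≤ 4 * B := by
  have := Pl.U1M.countable_sl
  have key : ∀ p ∈ P, ms Φ V ≤ (∫⁻ z in FF, ‖Φ z‖ₑ ^ 2 * cnt V p z ∂nu) +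
      ∫⁻ z in FF, ‖Φ z‖ₑ ^ 2 * cnt V (p * p) z ∂nu := by
    intro p hp
    obtain ⟨hpp, hl⟩ := hP p hp
    have m1 : ∀ N : ℕ, Measurable fun x : G =>
        ∑ k ∈ Finset.range N, ‖Φ (nm (sk N k) * x)‖ₑ ^ 2 := fun N =>
      Finset.measurable_sum _ fun k _ =>
        ((hE.cont.comp (continuous_const_mul _)).measurable.enorm.pow_const 2)
    rw [← cnt_int h1 h2 hE hV hpp.pos, ← cnt_int h1 h2 hE hV (Nat.mul_pos hpp.pos hpp.pos),
      ← lintegral_const_mul _ (m1 p), ← lintegral_const_mul _ (m1 (p * p)),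
      ← lintegral_add_left ((m1 p).const_mul 2)]
    exact lintegral_mono fun x => hk4 hE hpp hl x
  have m2 : ∀ N : ℕ, Measurable fun z : G => ‖Φ z‖ₑ ^ 2 * cnt V N z := fun N => by
    refine Measurable.mul (hE.cont.measurable.enorm.pow_const 2) ?_
    refine Finset.measurable_sum _ fun k _ => Measurable.tsum fun γ => ?_
    exact (measurable_const.indicator hV).comp (measurable_const_mul _)
  have h3 := Finset.sum_le_sum key
  rw [Finset.sum_const, nsmul_eq_mul, Finset.sum_add_distrib] at h3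
  refine h3.trans ?_
  rw [← lintegral_finsetSum _ fun p _ => m2 p, ← lintegral_finsetSum _ fun p _ => m2 (p * p)]
  have h4 : ∀ f : G → ℝ≥0∞, (∀ z, f z ≤ B) → ∫⁻ z in FF, ‖Φ z‖ₑ ^ 2 * f z ∂nu ≤ B * 2 := by
    intro f hf
    calc ∫⁻ z in FF, ‖Φ z‖ₑ ^ 2 * f z ∂nu ≤ ∫⁻ z in FF, B * ‖Φ z‖ₑ ^ 2 ∂nu :=
          lintegral_mono fun z => by
            rw [mul_comm]
            exact mul_le_mul_left (hf z) _
      _ = B * ∫⁻ z in FF, ‖Φ z‖ₑ ^ 2 ∂nu := by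
          rw [lintegral_const_mul _ (hE.cont.measurable.enorm.pow_const 2)]
      _ ≤ B * 2 := mul_le_mul_right hE.norm _
  have e3 : ∀ z, ∑ p ∈ P, ‖Φ z‖ₑ ^ 2 * cnt V p z = ‖Φ z‖ₑ ^ 2 * ∑ p ∈ P, cnt V p z :=
    fun z => by rw [Finset.mul_sum]
  have e4 : ∀ z, ∑ p ∈ P, ‖Φ z‖ₑ ^ 2 * cnt V (p * p) z =
      ‖Φ z‖ₑ ^ 2 * ∑ p ∈ P, cnt V (p * p) z := fun z => by rw [Finset.mul_sum]
  simp only [e3, e4]
  calc _ ≤ B * 2 + B * 2 := add_le_add (h4 _ hB1) (h4 _ hB2)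
    _ = 4 * B := by ring

end

end Pool.Agent.A54.HS
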